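import Pool.Agent.K1H74.FD.Fin

/-!
# A finite-dimensional connected low presented Polish space without computable presentation

The space is a compact subset of the space of the bounded sequences of project LQ (MP_3235d4_lc).
Let `M n` be the `n`-th Fermat number and let `Σ` be the solenoid of all `(z, w)`, `z` in the circle,
`w n` an `M n`-th part of `z`. For a set `S` the space consists of `Σ` and, for every `n ∉ S`, of the
mapping cylinder of the projection of `Σ` which forgets the coordinate `w n`. It is connected, it has
covering dimension at most `6`, and the map `z` to the circle is divisible by `M n` in the group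
of the continuous maps to the circle exactly if `n ∈ S`. If `S` is the complement of the jump of `D`
then the space has a `D`-computable presentation; and if it had a computable presentation, then `S`
would be a `Σ₂` set. Take a degree `D` that is low₂ but not low.
-/

set_option autoImplicit false

namespace Pool.Agent.Results.MP_f0c992_lc.FiniteDimConnected

open Pool.Agent.Helper227 Pool.Agent.W952.LP Pool.Agent.K1H74.FD

/-- There is an oracle `D` whose degree is low₂ and hence low₄, and a compact connected Polish space
of covering dimension at most `6` with a `D`-computable presentation which is not homeomorphic to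
any computably presented Polish space. -/
theorem result :
    ∃ D : ℕ → Bool,
      TLe (jump (jump D)) (jump (jump zero)) ∧
      TLe (jump (jump (jump (jump D)))) (jump (jump (jump (jump zero)))) ∧
      TLe (jump (jump (jump (jump zero)))) (jump (jump (jump (jump D)))) ∧
      ∃ (X : Type) (_ : TopologicalSpace X), PolishSpace X ∧ CompactSpace X ∧ ConnectedSpace X ∧
        DimLE X 6 ∧ Presented D X ∧
        ∀ (Y : Type) [TopologicalSpace Y], Presented zero Y → IsEmpty (X ≃ₜ Y) := by
  obtain ⟨D, hD1, hD2⟩ := Pool.Agent.W361.LQ.deg2 Pool.Agent.W952.LP.low Pool.Agent.W952.LP.inv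
  obtain ⟨T, hT1, hT2⟩ := Pool.Agent.W162.LQTab.main D
  let S : Set ℕ := {n | jump D n = false}
  have hS : ∀ n, n ∉ S ↔ ∃ y, T n y = true := by
    intro n
    rw [← hT2 n]
    simp [S]
  have hcX : CompactSpace (X1 S) := isCompact_iff_compactSpace.1 (X1_compact S)
  have hz : TLe zero D := by
    rw [tLe_iff_SI]
    exact SI.of_prim (Primrec.eq.comp (Primrec.const false) Primrec.snd)
  refine ⟨D, hD2, hD2.jump.jump, hz.jump.jump.jump.jump, X1 S, inferInstance, inferInstance, hcX,
    isConnected_iff_connectedSpace.1 (connected_X1 S), dim_X1 S, presented1 D T hT1 S hS, ?_⟩
  intro Y _ hY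
  exact ⟨fun φ => no_presentation D hD1 Y hY φ⟩

end Pool.Agent.Results.MP_f0c992_lc.FiniteDimConnected
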